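import Pool.Agent.Helper29.T5g.Buf
import Pool.Agent.Helper37.T5g.Prod
import Pool.Agent.Helper30.T5g.Index

/-!
# T5g (MP_12a1af): the buffer digits are few, instance of the schedule with a fixed quotient
-/

set_option autoImplicit false

namespace Pool.Agent.Helper29.T5g

open Finset Pool.Agent.Helper5.ET Pool.Agent.Helper27.T4
open Pool.Agent.Helper37.T5g
open Pool.Agent.Helper27.T5b (l1 ct)

variable {m : Sq}

theorem RB_le_SS (m : Sq) (s : ℕ) : RB m s ≤ 2 ^ aa m (s - 1) := by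
  have b3 := Nat.div_mul_le_self (SS m (s - 1)) (2 ^ 9)
  have e : SS m (s - 1) = 2 ^ aa m (s - 1) := rfl
  unfold RB
  norm_num at b3 ⊢
  omega

theorem gap_aux {q : ℕ} (hq : 400 ≤ q) : 2 * 2 ^ 300 * (2 * (q + 1) + 1) ≤ 2 ^ q := by
  induction q, hq using Nat.le_induction with
  | base =>
    have e : (2 : ℕ) ^ 400 = 2 ^ 300 * 2 ^ 100 := by rw [← pow_add]
    rw [e]
    calc 2 * 2 ^ 300 * (2 * (400 + 1) + 1) = 2 ^ 300 * 1606 := by ring
      _ ≤ _ := Nat.mul_le_mul_left _ (by norm_num)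
  | succ q hq ih =>
    rw [pow_succ 2 q]
    generalize 2 ^ 300 = A at *
    nlinarith

/-- the data of `BUF` for the schedule -/
theorem bufOk (hm : m.Ok) (qc : ∀ t, m.q t = m.q 0) (kc : ∀ t, m.kap t = m.kap 0) (k : ℕ) {C : ℕ}
    (hC : C ≤ 2 ^ 300) :
    BufOk (aa m) m.q (fun t => aa m (t + 1) + m.kap t) (kt m) (lv m k) (RB m) k k C where
  succ := aa_succ m
  lo := kt_specT m
  hi := fun t => by
    have h := bb_kt_lt hm t
    rw [pow_succ, mul_comm]
    exact h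
  mono := (kt_strictMono hm).monotone
  lvle := fun j t => lv_le_iff hm
  kk := le_rfl
  R := RB_le_SS m
  gap := fun t _ => by
    have h1 : aa m (t + 2 + 1) = aa m (t + 1 + 1) + m.q (t + 2) + 1 := aa_succ m (t + 2)
    have h2 : aa m (t + 2 + 1) + m.kap (t + 2) - (aa m (t + 1 + 1) + m.kap (t + 1)) =
        m.q t + 1 := by
      rw [h1, kc (t + 2), kc (t + 1), qc (t + 2), qc t]
      omega
    show 2 * C * (2 * (aa m (t + 2 + 1) + m.kap (t + 2) - (aa m (t + 1 + 1) + m.kap (t + 1))) + 1) ≤ _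
    rw [h2]
    exact (Nat.mul_le_mul_right _ (Nat.mul_le_mul_left _ hC)).trans (gap_aux (hm.q t))

/-- late states have many levels -/
theorem exists_lv (hm : m.Ok) (k t0 : ℕ) : ∃ l0, ∀ l ≥ l0, t0 < lv m k (era (l1 (ins m k) l)) := by
  obtain ⟨l0, h0⟩ := Pool.Agent.Helper30.T5g.exists_late (k := k) hm 0 (kt m (t0 + 1) + 1)
  refine ⟨l0, fun l hl => ?_⟩
  obtain ⟨_, _, _, h4, _⟩ := h0 l hl
  exact (lt_lv_iff hm).2 (Or.inr (by
    have : kt m (t0 + 1) + 1 ≤ era (l1 (ins m k) l) := h4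
    omega))

/-- **the buffer is small** -/
theorem exists_buf (hm : m.Ok) (qc : ∀ t, m.q t = m.q 0) (kc : ∀ t, m.kap t = m.kap 0) (k : ℕ)
    {C : ℕ} (hC : C ≤ 2 ^ 300) : ∃ l0, ∀ l ≥ l0,
    C * ct (ins m k) own (ex m k) (Sum.inr none) l ≤ SS m (lv m k (era (l1 (ins m k) l))) := by
  obtain ⟨t0, ht0⟩ := (bufOk hm qc kc k hC).buf
  obtain ⟨l0, h0⟩ := Pool.Agent.Helper30.T5g.exists_late (k := k) hm 0 0
  obtain ⟨l2, h2⟩ := exists_lv hm k t0
  refine ⟨max l0 l2, fun l hl => ?_⟩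
  obtain ⟨_, hy, _, _, _⟩ := h0 l ((le_max_left _ _).trans hl)
  have hlv := h2 l ((le_max_right _ _).trans hl)
  exact (Nat.mul_le_mul_left _ (ct_none_le hm hy)).trans (ht0 _ hlv.le)

end Pool.Agent.Helper29.T5g
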