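import Pool.Agent.Helper27.T5g.Basic

/-!
# T5g (MP_12a1af): basic facts of the states: see `Pool.Agent.Helper27.T5g.Basic`
-/

set_option autoImplicit false

namespace Pool.Agent.Helper27.T5g

open Pool.Agent.Helper37.T5g

variable {m : Sq}

theorem Tk_succ_ge (hm : m.Ok) (t : ℕ) : 2 ^ 250 * Tk m t ≤ Tk m (t + 1) := by
  unfold Tk
  rw [← pow_add]
  apply Nat.pow_le_pow_right (by norm_num)
  have := hm.T2 t
  rw [aa_succ m (t + 1)]
  omega

end Pool.Agent.Helper27.T5g
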