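import Pool.Agent.Helper27.T4.Sch

/-!
# T5g (MP_12a1af): the buffer digits are few, general schedule

Thresholds `τ t`, `K t` = the first border `≥ 2 ^ τ t`, `lv j` = number of split levels when the era
`j` begins, `R s` = number of buffer digits before a border with `s` split levels.  If
`2 * C * (2 * (τ (u + 1) - τ u) + 1) ≤ 2 ^ q (u - 1)` for late `u` then `C` times the number of all
buffer digits up to the era `J` is at most `2 ^ a (lv J)` for late `J`.  No condition on the ratio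
(it may be constant): geometric sum over the levels.
-/

set_option autoImplicit false

namespace Pool.Agent.Helper29.T5g

open Finset Pool.Agent.Helper5.ET Pool.Agent.Helper27.T4

theorem two_mul_bb (j : ℕ) : 2 * bb j ≤ bb (j + 2) := by
  have a1 := (bb_step j).1
  have a2 := (bb_step (j + 1)).1
  have a3 := bb_ge_pow j
  have e : j + 1 + 1 = j + 2 := rfl
  rw [e] at a2
  omega

/-- growth of the borders -/
theorem bb_growth (i n : ℕ) : 2 ^ (n / 2) * bb i ≤ bb (i + n) := by
  induction n using Nat.strong_induction_on with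
  | _ n ih =>
    rcases Nat.lt_or_ge n 2 with h | h
    · have e : n / 2 = 0 := by omega
      rw [e, pow_zero, one_mul]
      exact bb_strictMono.monotone (Nat.le_add_right _ _)
    · obtain ⟨r, rfl⟩ : ∃ r, n = r + 2 := ⟨n - 2, by omega⟩
      have a1 := ih r (by omega)
      have a2 := two_mul_bb (i + r)
      have e : (r + 2) / 2 = r / 2 + 1 := by omega
      have e2 : i + (r + 2) = i + r + 2 := by omega
      rw [e, pow_succ, e2]
      calc 2 ^ (r / 2) * 2 * bb i = 2 * (2 ^ (r / 2) * bb i) := by ring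
        _ ≤ 2 * bb (i + r) := Nat.mul_le_mul_left _ a1
        _ ≤ _ := a2

/-- number of borders between two thresholds -/
theorem era_gap {K K' x x' : ℕ} (h : K ≤ K') (h1 : 2 ^ x ≤ bb K) (h2 : bb K' < 2 ^ (x' + 1)) :
    K' - K ≤ 2 * (x' - x) + 1 := by
  obtain ⟨n, rfl⟩ := Nat.exists_eq_add_of_le h
  have h3 := bb_growth K n
  have h4 : 2 ^ (n / 2 + x) < 2 ^ (x' + 1) := by
    rw [pow_add]
    exact lt_of_le_of_lt ((Nat.mul_le_mul_left _ h1).trans h3) h2
  have h5 := (Nat.pow_lt_pow_iff_right (by norm_num)).1 h4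
  omega

/-- the data of a schedule used for the buffer; `k0` is the level from which on `gap` holds -/
structure BufOk (a q τ K lv R : ℕ → ℕ) (k k0 C : ℕ) : Prop where
  succ : ∀ t, a (t + 1) = a t + q t + 1
  lo : ∀ t, 2 ^ τ t ≤ bb (K t)
  hi : ∀ t, bb (K t) < 2 ^ (τ t + 1)
  mono : Monotone K
  lvle : ∀ j t, lv j ≤ t ↔ k ≤ t ∧ j ≤ K (t + 1)
  kk : k ≤ k0
  R : ∀ s, R s ≤ 2 ^ a (s - 1)
  gap : ∀ t, k0 ≤ t → 2 * C * (2 * (τ (t + 2) - τ (t + 1)) + 1) ≤ 2 ^ q t

variable {a q τ K lv R : ℕ → ℕ} {k k0 C : ℕ}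

/-- all buffer digits up to the special era of the triple `t + 1` -/
theorem BufOk.sum_le (h : BufOk a q τ K lv R k k0 C) {t : ℕ} (ht : k0 ≤ t) :
    2 * C * ∑ j ∈ range (K (t + 1) + 1), R (lv j) ≤
      2 * C * ∑ j ∈ range (K (k0 + 1) + 1), R (lv j) + 2 ^ a t := by
  induction t, ht using Nat.le_induction with
  | base => exact Nat.le_add_right _ _
  | succ t ht ih =>
    have hKK : K (t + 1) ≤ K (t + 2) := h.mono (Nat.le_succ _)
    have h1 : ∑ j ∈ range (K (t + 1 + 1) + 1), R (lv j) =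
        ∑ j ∈ range (K (t + 1) + 1), R (lv j) +
          ∑ j ∈ Ico (K (t + 1) + 1) (K (t + 2) + 1), R (lv j) :=
      (sum_range_add_sum_Ico _ (show K (t + 1) + 1 ≤ K (t + 2) + 1 by omega)).symm
    have h2 : ∑ j ∈ Ico (K (t + 1) + 1) (K (t + 2) + 1), R (lv j) ≤
        (K (t + 2) - K (t + 1)) * 2 ^ a t := by
      refine (sum_le_card_nsmul _ _ (2 ^ a t) ?_).trans (le_of_eq ?_)
      · intro j hj
        rw [mem_Ico] at hj
        have b1 : lv j ≤ t + 1 := (h.lvle j (t + 1)).2 ⟨by have := h.kk; omega, by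
          show j ≤ K (t + 2)
          omega⟩
        have b2 : ¬ lv j ≤ t := by
          intro hc
          have := ((h.lvle j t).1 hc).2
          omega
        have b3 : lv j = t + 1 := by omega
        rw [b3]
        exact h.R (t + 1)
      · rw [Nat.card_Ico, smul_eq_mul]
        congr 1
        omega
    have h3 := era_gap hKK (h.lo (t + 1)) (h.hi (t + 2))
    have h4 : 2 * C * ((K (t + 2) - K (t + 1)) * 2 ^ a t) ≤ 2 ^ q t * 2 ^ a t := by
      rw [← mul_assoc]
      exact Nat.mul_le_mul_right _ ((Nat.mul_le_mul_left _ h3).trans (h.gap t ht))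
    have h5 : 2 ^ a (t + 1) = 2 * (2 ^ q t * 2 ^ a t) := by
      rw [h.succ, pow_succ, pow_add]
      ring
    have h6 : 2 ^ a t ≤ 2 ^ q t * 2 ^ a t := Nat.le_mul_of_pos_left _ (by positivity)
    rw [h1, h5, mul_add]
    have h7 := Nat.mul_le_mul_left (2 * C) h2
    omega

/-- **BUF** -/
theorem BufOk.buf (h : BufOk a q τ K lv R k k0 C) : ∃ t0, ∀ J, t0 ≤ lv J →
    C * ∑ j ∈ range (J + 1), R (lv j) ≤ 2 ^ a (lv J) := by
  set B := 2 * C * ∑ j ∈ range (K (k0 + 1) + 1), R (lv j) with hB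
  have hat : ∀ t, t ≤ a t := by
    intro t
    induction t with
    | zero => exact Nat.zero_le _
    | succ t ih =>
      rw [h.succ]
      omega
  refine ⟨k0 + B, fun J hJ => ?_⟩
  have h1 := h.sum_le (t := lv J) (by omega)
  have h2 : B ≤ 2 ^ a (lv J) := by
    have c1 := hat (lv J)
    have c2 : a (lv J) < 2 ^ a (lv J) := Nat.lt_two_pow_self
    omega
  have h3 : J ≤ K (lv J + 1) := ((h.lvle J (lv J)).1 le_rfl).2
  have h4 : ∑ j ∈ range (J + 1), R (lv j) ≤ ∑ j ∈ range (K (lv J + 1) + 1), R (lv j) :=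
    sum_le_sum_of_subset (range_subset_range.2 (by omega))
  have h5 := Nat.mul_le_mul_left (2 * C) h4
  have h6 : 2 * C * ∑ j ∈ range (J + 1), R (lv j) = 2 * (C * ∑ j ∈ range (J + 1), R (lv j)) := by
    ring
  omega

end Pool.Agent.Helper29.T5g
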