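import Pool.Agent.Helper29.T5g.Basic
import Pool.Agent.Helper27.T5g.Range
import Pool.Agent.Helper84.T5g.Pair
import Pool.Agent.Helper99.T5g.OkF

/-!
# T5g (MP_12a1af): RANGE
-/

set_option autoImplicit false

namespace Pool.Agent.Helper27.T5g

open Pool.Agent.Helper37.T5g Pool.Agent.Helper84.T5g Pool.Agent.Helper99.T5g

variable {m : Sq}

/-- the primes against the quotients -/
theorem bigQ (hm : OkF m) : Pool.Agent.Helper30.T5g.BigQ m m.k := by
  refine ⟨0, fun t _ => ?_⟩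
  have h1 := hm.big
  have h2 : 10 ^ 6 * Pool.Agent.Helper30.T5g.BP m.k ≤ 2 ^ 40 * Pool.Agent.Helper30.T5g.BP m.k :=
    Nat.mul_le_mul_right _ (by norm_num)
  refine (h2.trans h1).trans (Nat.pow_le_pow_right (by norm_num) ?_)
  rw [hm.gc (t + 1)]
  exact Nat.le_add_left _ _

/-- **RANGE** -/
theorem rangeStmt (hm : OkF m) : RangeStmt m := by
  obtain ⟨l0, h⟩ := exists_AA_range hm.toOk m.k (hQ := bigQ hm)
  exact ⟨l0, fun l hl w _ a ha => ⟨(h l hl w a ha).1, (h l hl w a ha).2.2⟩⟩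

end Pool.Agent.Helper27.T5g
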