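import Pool.Agent.Helper29.T5g.FarInst
import Pool.Agent.Helper44.T5.Lab
import Pool.Agent.Helper57.T5.RInst
import Pool.Agent.Helper97.ET.Cnt

/-!
# T5g (MP_12a1af): J5, the extraction of free sets of hits

`freeStmt : OkF m → FreeStmt 1 m`: a maximal free set `T`; every hit agrees with an element of `T` in
the moving main families on one side, and then there are at most `C` pairs of main vectors.
-/

set_option autoImplicit false

namespace Pool.Agent.Helper29.T5g

open Finset Pool.Agent.Helper27.T4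
open Pool.Agent.Helper5.ET (Nj era bb pr av cnt pre own pr_prime pr_inj pr_ne_two rk ordK)
open Pool.Agent.Helper42.T5.Pr Pool.Agent.Helper84.T5g Pool.Agent.Helper37.T5g
open Pool.Agent.Helper22.HW Pool.Agent.Helper57.T5 Pool.Agent.Helper39.T5
open Pool.Agent.Helper30.T5g (NL RT)
open Pool.Agent.Helper27.T5b (ct ct_main ct_mono l1)
open Pool.Agent.Helper44.T5 (Good pairs_mod)
open Pool.Agent.Helper3.T4 (card_le_prod_of_rank card_single_le)

/-! ## the labels -/

section Gen

variable {ι : Type*} [Fintype ι] [DecidableEq ι] {p : ι → ℕ}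

/-- **one side of the moving families given: boundedly many pairs of vectors** -/
theorem free_labels (hp : ∀ i, (p i).Prime) (hp2 : ∀ i, p i ≠ 2) (a b : ι → ℕ) (Mv : Finset ι)
    (hab : ∀ i, i ∉ Mv → a i = b i) (ha2 : ∀ i, a i ≤ 2 * b i)
    (rk : ι → ℕ) (σ σ' : ∀ i, (ι → ℕ) → ZMod (p i ^ b i))
    (hσ : ∀ i x y, (∀ j, rk j < rk i → x j = y j) → σ i x = σ i y)
    (hσ' : ∀ i x y, (∀ j, rk j < rk i → x j = y j) → σ' i x = σ' i y)
    (c : ∀ i, ZMod (p i ^ b i)) (S : Finset ((ι → ℕ) × (ι → ℕ)))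
    (hS : ∀ g ∈ S, ∀ i, Good (g.1 i) ∧ Good (g.2 i) ∧ (g.1 i).Coprime (p i) ∧
      (g.2 i).Coprime (p i) ∧ (g.1 i) ^ 2 < p i ^ a i ∧ (g.2 i) ^ 2 < p i ^ b i ∧
      (Lg (p i) (b i) (g.1 i) + σ i g.1) + (Lg (p i) (b i) (g.2 i) + σ' i g.2) = c i)
    (u : ι → ℕ)
    (hu : (∀ g ∈ S, ∀ i ∈ Mv, g.1 i = u i) ∨ (∀ g ∈ S, ∀ i ∈ Mv, g.2 i = u i)) :
    S.card ≤ ∏ i, (2 * (p i - 1)) := by
  classical
  set Φ : ((ι → ℕ) × (ι → ℕ)) → ι → ℕ × ℕ := fun g i => (g.1 i, g.2 i) with hΦ
  have hinjΦ : Function.Injective Φ := by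
    intro g g' h
    refine Prod.ext ?_ ?_
    · funext i
      exact congrArg Prod.fst (congrFun h i)
    · funext i
      exact congrArg Prod.snd (congrFun h i)
  rw [← card_image_of_injective S hinjΦ]
  refine card_le_prod_of_rank rk _ _ ?_
  intro f g hg
  rw [mem_image] at hg
  obtain ⟨g0, hg0, rfl⟩ := hg
  set I := ((S.image Φ).filter (fun g' => ∀ i, rk i < rk f → g' i = Φ g0 i)).image
    (fun g' => g' f) with hI
  set t : ZMod (p f ^ b f) := c f - σ f g0.1 - σ' f g0.2 with ht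
  have hz : ∀ z ∈ I, ∃ g' ∈ S, z = (g'.1 f, g'.2 f) ∧ Lg (p f) (b f) z.1 + Lg (p f) (b f) z.2 = t := by
    intro z hz
    rw [hI, Finset.mem_image] at hz
    obtain ⟨w, hw, rfl⟩ := hz
    rw [Finset.mem_filter, mem_image] at hw
    obtain ⟨⟨g', hg', rfl⟩, hlow⟩ := hw
    refine ⟨g', hg', rfl, ?_⟩
    obtain ⟨_, _, _, _, _, _, h6⟩ := hS g' hg' f
    have e1 : σ f g'.1 = σ f g0.1 := hσ f _ _ (fun j hj => congrArg Prod.fst (hlow j hj))
    have e2 : σ' f g'.2 = σ' f g0.2 := hσ' f _ _ (fun j hj => congrArg Prod.snd (hlow j hj))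
    rw [ht, ← h6, e1, e2]
    show Lg (p f) (b f) (g'.1 f) + Lg (p f) (b f) (g'.2 f) = _
    ring
  have hone : ∀ (J : Finset ℕ) (s : ZMod (p f ^ b f)),
      (∀ x ∈ J, x.Coprime (p f) ∧ x ^ 2 < p f ^ (2 * b f) ∧ Lg (p f) (b f) x = s) →
      J.card ≤ 2 * (p f - 1) := by
    intro J s hJ
    have h := card_single_le (hp f) (hp2 f) (2 * b f) (b f) s J hJ
    have h0 : (2 * b f - 2 * b f) / 2 = 0 := by omega
    rw [h0, pow_zero, mul_one] at h
    omega
  by_cases hf : f ∈ Mv
  · rcases hu with hu | hu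
    · -- the first coordinate is given
      have h1 : I.card ≤ (I.image Prod.snd).card := by
        refine le_of_eq (card_image_of_injOn ?_).symm
        intro z1 hz1 z2 hz2 h
        obtain ⟨g1, hg1, e1, _⟩ := hz z1 hz1
        obtain ⟨g2, hg2, e2, _⟩ := hz z2 hz2
        refine Prod.ext ?_ h
        rw [e1, e2]
        show g1.1 f = g2.1 f
        rw [hu g1 hg1 f hf, hu g2 hg2 f hf]
      refine h1.trans (hone _ (t - Lg (p f) (b f) (u f)) ?_)
      intro y hy
      rw [mem_image] at hy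
      obtain ⟨z, hzI, rfl⟩ := hy
      obtain ⟨g', hg', e, e2⟩ := hz z hzI
      obtain ⟨_, _, _, h4, _, h6, _⟩ := hS g' hg' f
      have e3 : z.1 = u f := by rw [e]; exact hu g' hg' f hf
      have e4 : z.2 = g'.2 f := by rw [e]
      rw [e4]
      refine ⟨h4, lt_of_lt_of_le h6 (Nat.pow_le_pow_right (hp f).pos (by omega)), ?_⟩
      rw [← e4, ← e2, e3]
      ring
    · have h1 : I.card ≤ (I.image Prod.fst).card := by
        refine le_of_eq (card_image_of_injOn ?_).symm
        intro z1 hz1 z2 hz2 h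
        obtain ⟨g1, hg1, e1, _⟩ := hz z1 hz1
        obtain ⟨g2, hg2, e2, _⟩ := hz z2 hz2
        refine Prod.ext h ?_
        rw [e1, e2]
        show g1.2 f = g2.2 f
        rw [hu g1 hg1 f hf, hu g2 hg2 f hf]
      refine h1.trans (hone _ (t - Lg (p f) (b f) (u f)) ?_)
      intro y hy
      rw [mem_image] at hy
      obtain ⟨z, hzI, rfl⟩ := hy
      obtain ⟨g', hg', e, e2⟩ := hz z hzI
      obtain ⟨_, _, h3, _, h5, _, _⟩ := hS g' hg' f
      have e3 : z.2 = u f := by rw [e]; exact hu g' hg' f hf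
      have e4 : z.1 = g'.1 f := by rw [e]
      rw [e4]
      refine ⟨h3, lt_of_lt_of_le h5 (Nat.pow_le_pow_right (hp f).pos (ha2 f)), ?_⟩
      rw [← e4, ← e2, e3]
      ring
  · have h := pairs_mod (hp f) (hp2 f) (b f) t {0} I (fun z hzI => by
      obtain ⟨g', hg', e, e2⟩ := hz z hzI
      obtain ⟨h1, h2, h3, h4, h5, h6, _⟩ := hS g' hg' f
      refine ⟨?_, ?_, ?_, ?_, ?_, e2⟩
      · rw [e]; exact h1
      · rw [e]; exact h2
      · rw [e]; exact h3
      · rw [e]; exact h4
      · rw [e, mem_singleton]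
        rw [hab f hf] at h5
        refine Nat.div_eq_of_lt (lt_of_lt_of_le
          (Pool.Agent.Helper44.T5.prod_lt_of_half (e := b f) (hp f).pos h5 h6 (by omega)) ?_)
        exact Nat.pow_le_pow_right (hp f).pos (Nat.le_succ _))
    rwa [card_singleton, mul_one] at h

end Gen

/-! ## the main components of a hit -/

variable {m : Sq} {k : ℕ}

/-- the hash value of the main family `f` of the state `l`, reduced -/
noncomputable def hv (m : Sq) (k l : ℕ) (w : Key → ℕ) (b : Fin 3 → ℕ) (f : Fin 3) (v : Fin 3 → ℕ) :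
    ZMod (pr f ^ b f) :=
  ((w (fkey l f (Helper25.T5.mk (pre (mL m k l) f) v)) : ℕ) : ZMod (pr f ^ b f))

theorem hv_congr (l : ℕ) (w : Key → ℕ) (b : Fin 3 → ℕ) {f : Fin 3} {v v' : Fin 3 → ℕ}
    (h : ∀ g ∈ pre (mL m k l) f, v g = v' g) : hv m k l w b f v = hv m k l w b f v' := by
  have e : Helper25.T5.mk (pre (mL m k l) f) v = Helper25.T5.mk (pre (mL m k l) f) v' := by
    funext g
    unfold Helper25.T5.mk
    split_ifs with hg
    · exact h g hg
    · rfl
  unfold hv
  rw [e]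

/-- the main components of the value of a parameter -/
theorem val_res (hm : m.Ok) {l : ℕ} {w : Key → ℕ} {q : Par m k l} (hq : q ∈ Pm m k l w)
    (b : Fin 3 → ℕ) {f : Fin 3} (hb : b f ≤ av (mL m k l) f) :
    ((val m k l w q : ℕ) : ZMod (pr f ^ b f)) =
      Lg (pr f) (b f) (mainV q.1.1 f) + hv m k l w b f (mainV q.1.1) := by
  obtain ⟨⟨x, y⟩, u⟩ := q
  unfold Pm at hq
  rw [mem_product, mem_product, mem_image] at hq
  obtain ⟨⟨hx, _⟩, v, _, hu⟩ := hq
  simp only at hx hu
  subst hu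
  have h1 : ((val m k l w ((x, y), Un m k l * v) : ℕ) : ZMod (pr f ^ av (mL m k l) f)) =
      Lg (pr f) (av (mL m k l) f) (mainV x f) +
        ((w (fkey l f (Helper25.T5.mk (pre (mL m k l) f) (mainV x))) : ℕ) :
          ZMod (pr f ^ av (mL m k l) f)) := by
    show (((c0 m k l w x + ∑ t : Fin (rL m k l), cs m k l t w (okey m k l t x) (y t)) +
      Un m k l * v : ℕ) : ZMod (pr f ^ av (mL m k l) f)) = _
    have hcs : (((∑ t : Fin (rL m k l), cs m k l t w (okey m k l t x) (y t) : ℕ)) :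
        ZMod (pr f ^ av (mL m k l) f)) = 0 := by
      rw [ZMod.natCast_eq_zero_iff]
      apply dvd_sum
      intro t _
      exact dvd_cs hm k l t w _ _ f
    have hv : (((Un m k l * v : ℕ)) : ZMod (pr f ^ av (mL m k l) f)) = 0 := by
      rw [ZMod.natCast_eq_zero_iff]
      unfold Un
      rw [mul_assoc]
      exact (pow_dvd_Jn _ le_rfl f).mul_right _
    rw [Nat.cast_add, Nat.cast_add, hcs, hv, add_zero, add_zero]
    exact c0_res hm w hx f
  have h2 := congrArg (ZMod.castHom (pow_dvd_pow (pr f) hb) (ZMod (pr f ^ b f))) h1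
  rw [map_natCast, map_add, map_natCast,
    Lg_red (pr_prime f) (pr_ne_two f) _ _ _ (main_coprime hx f) hb] at h2
  exact h2

theorem main_data {l : ℕ} {w : Key → ℕ} {q : Par m k l} (hq : q ∈ Pm m k l w) {f : Fin 3}
    (hpos : 0 < av (mL m k l) f) : (mainV q.1.1 f).Prime ∧ (mainV q.1.1 f).Coprime (pr f) ∧
      (mainV q.1.1 f) ^ 2 < pr f ^ av (mL m k l) f := by
  obtain ⟨⟨x, y⟩, u⟩ := q
  unfold Pm at hq
  rw [mem_product, mem_product] at hq
  obtain ⟨⟨hx, _⟩, _⟩ := hq
  simp only at hx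
  unfold XJ at hx
  rw [Fintype.mem_piFinset] at hx
  have h1 := hx (Sum.inl f)
  rw [if_neg (by rw [aJ_main]; omega), aJ_main] at h1
  exact mem_T1.1 h1

/-! ## FreeStmt -/

/-- conditions for late near pairs -/
theorem exists_near_cond (hm : m.Ok) (k : ℕ) : ∃ l0, ∀ l l', l0 ≤ l' → l' ≤ l → Near m k l' l →
    bb 0 ≤ mL m k l' ∧ 60 * (mL m k l - mL m k l') ≤ mL m k l ∧
    ∀ f, 0 < av (mL m k l') f ∧ av (mL m k l') f ≤ av (mL m k l) f ∧
      av (mL m k l) f ≤ 2 * av (mL m k l') f := by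
  obtain ⟨y0, hy0⟩ := Pool.Agent.Helper97.ET.cnt_ge
  obtain ⟨n1, h1⟩ := Pool.Agent.Helper30.T5g.exists_late (k := k) hm y0 0
  refine ⟨n1, fun l l' hl' hll hN => ?_⟩
  obtain ⟨a1, a2, a3, _, _⟩ := h1 l' hl'
  have a1' : y0 ≤ mL m k l' := a1
  have a2' : bb 0 ≤ mL m k l' := a2
  have a3' : kt m k ≤ era (mL m k l') := a3
  have hle : mL m k l' ≤ mL m k l := Pool.Agent.Helper27.T5b.l1_mono (ins m k) hll
  have h2 := ZZ_small hm a3'
  have h3 := (era_spec (mL m k l') a2').1
  have h4 : 4 * (mL m k l - mL m k l') < ZZ m k (era (mL m k l')) := hN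
  have h5 : 2 ^ 10 * ZZ m k (era (mL m k l')) ≤ mL m k l' :=
    ((Nat.mul_le_mul_right _ (Nat.pow_le_pow_right (by norm_num) (by norm_num))).trans h2).trans h3
  have h6 := bb_ge_pow 0
  have h7 : 1000 * (mL m k l - mL m k l') ≤ mL m k l' := by omega
  refine ⟨a2', by omega, fun f => ?_⟩
  have h8 := (hy0 _ a1' f).1
  have h9 : mL m k l' ≤ 6 * cnt f (mL m k l') := by
    have : (mL m k l' : ℝ) ≤ 6 * cnt f (mL m k l') := by linarith
    exact_mod_cast this
  have h10 := cnt_sub f hle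
  have h11 : ((Finset.Ico (mL m k l') (mL m k l)).filter (fun t => own t = f)).card ≤
      mL m k l - mL m k l' := by
    refine (card_filter_le _ _).trans ?_
    rw [Nat.card_Ico]
  have e1 : av (mL m k l') f = cnt f (mL m k l') := rfl
  have e2 : av (mL m k l) f = cnt f (mL m k l) := rfl
  omega

/-- **J5** -/
theorem freeStmt (m : Sq) (hm : m.Ok) : FreeStmt 1 m := by
  classical
  obtain ⟨l0, h0⟩ := exists_near_cond hm m.k
  set k := m.k with hk
  set Cp : ℕ := ∏ i, (2 * (pr i - 1)) with hCp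
  have hCp2 : 2 * Cp ≤ 2 ^ (1 * m.q 0) := by
    have h1 : 2 * Cp ≤ 2 ^ 64 := by
      rw [hCp, Fin.prod_univ_three]
      decide
    exact h1.trans (Nat.pow_le_pow_right (by norm_num) (by have := hm.q 0; omega))
  refine ⟨l0, fun l l' hl' hll hN w n Mc Mf hMc hMf => ?_⟩
  rw [← hk] at hMc hMf ⊢
  obtain ⟨hb0, hclose, hav⟩ := h0 l l' hl' hll hN
  set H := Hts m k l l' w n with hH
  have hHm : ∀ q ∈ H, q.1 ∈ Pm m k l w ∧ q.2 ∈ Pm m k l' w ∧
      val m k l w q.1 + val m k l' w q.2 = n := by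
    intro q hq
    rw [hH] at hq
    unfold Hts at hq
    rw [mem_filter, mem_product] at hq
    exact ⟨hq.1.1, hq.1.2, hq.2⟩
  set mp : Par m k l × Par m k l' → (Fin 3 → ℕ) × (Fin 3 → ℕ) :=
    fun q => (mainV q.1.1.1, mainV q.2.1.1) with hmp
  -- given one side of the moving families
  have key : ∀ A ⊆ H, ∀ u : Fin 3 → ℕ,
      ((∀ q ∈ A, ∀ f ∈ mov m k l' l, q.1.1.1 (Sum.inl f) = u f) ∨
        (∀ q ∈ A, ∀ f ∈ mov m k l' l, q.2.1.1 (Sum.inl f) = u f)) → A.card ≤ Mc * Cp := by
    intro A hA u hu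
    have hcard : (A.image mp).card ≤ Cp := by
      refine free_labels pr_prime pr_ne_two (av (mL m k l)) (av (mL m k l')) (mov m k l' l)
        ?_ (fun i => (hav i).2.2) (rk (ordK (mL m k l)))
        (fun f v => hv m k l w (av (mL m k l')) f v)
        (fun f v => hv m k l' w (av (mL m k l')) f v) ?_ ?_ (fun f => ((n : ℕ) : ZMod _))
        (A.image mp) ?_ u ?_
      · intro i hi
        have h1 : ¬ cnt i (mL m k l') < cnt i (mL m k l) := by
          intro h
          exact hi (mem_filter.2 ⟨mem_univ _, h⟩)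
        have h2 := (hav i).2.1
        have e1 : av (mL m k l') i = cnt i (mL m k l') := rfl
        have e2 : av (mL m k l) i = cnt i (mL m k l) := rfl
        omega
      · intro i x y h
        exact hv_congr l w _ (fun g hg => h g ((mem_pre _ _ _).1 hg).2)
      · intro i x y h
        exact hv_congr l' w _ (fun g hg => h g (pre_sub' hb0
          (Pool.Agent.Helper27.T5b.l1_mono (ins m k) hll) hclose hg))
      · intro g hg i
        rw [mem_image] at hg
        obtain ⟨q, hq, rfl⟩ := hg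
        obtain ⟨a1, a2, a3⟩ := hHm q (hA hq)
        have hp1 := (hav i).1
        have hp2 := (hav i).2.1
        obtain ⟨c1, c2, c3⟩ := main_data a1 (f := i) (by omega)
        obtain ⟨d1, d2, d3⟩ := main_data a2 (f := i) hp1
        refine ⟨Or.inr c1, Or.inr d1, c2, d2, c3, d3, ?_⟩
        have e1 := val_res hm a1 (av (mL m k l')) (f := i) hp2
        have e2 := val_res hm a2 (av (mL m k l')) (f := i) le_rfl
        show (Lg (pr i) (av (mL m k l') i) (mainV q.1.1.1 i) +
          hv m k l w (av (mL m k l')) i (mainV q.1.1.1)) +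
          (Lg (pr i) (av (mL m k l') i) (mainV q.2.1.1 i) +
          hv m k l' w (av (mL m k l')) i (mainV q.2.1.1)) = ((n : ℕ) : ZMod _)
        rw [← e1, ← e2, ← Nat.cast_add, a3]
      · rcases hu with hu | hu
        · left
          intro g hg i hi
          rw [mem_image] at hg
          obtain ⟨q, hq, rfl⟩ := hg
          exact hu q hq i hi
        · right
          intro g hg i hi
          rw [mem_image] at hg
          obtain ⟨q, hq, rfl⟩ := hg
          exact hu q hq i hi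
    refine (card_le_mul_card_image_of_maps_to (f := mp) (t := A.image mp)
      (fun q hq => mem_image_of_mem _ hq) Mc ?_).trans (Nat.mul_le_mul_left _ hcard)
    intro z _
    refine (card_le_card ?_).trans (hMc z.1 z.2)
    intro q hq
    rw [mem_filter] at hq ⊢
    refine ⟨hA hq.1, ?_, ?_⟩
    · intro f
      exact congrFun (congrArg Prod.fst hq.2) f
    · intro f
      exact congrFun (congrArg Prod.snd hq.2) f
  -- a maximal free set
  obtain ⟨T, hT, hmax⟩ := exists_max_image (H.powerset.filter (fun T => Free m k l l' T)) card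
    ⟨∅, mem_filter.2 ⟨mem_powerset.2 (empty_subset _), fun q hq => absurd hq (notMem_empty q)⟩⟩
  rw [mem_filter, mem_powerset] at hT
  obtain ⟨hTH, hTF⟩ := hT
  set A : Par m k l × Par m k l' → Finset (Par m k l × Par m k l') := fun r =>
    H.filter (fun q => ∀ f ∈ mov m k l' l, q.1.1.1 (Sum.inl f) = r.1.1.1 (Sum.inl f)) with hA
  set B : Par m k l × Par m k l' → Finset (Par m k l × Par m k l') := fun r =>
    H.filter (fun q => ∀ f ∈ mov m k l' l, q.2.1.1 (Sum.inl f) = r.2.1.1 (Sum.inl f)) with hB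
  have hcover : H ⊆ T.biUnion (fun r => A r ∪ B r) := by
    intro h hh
    rw [mem_biUnion]
    by_contra hc
    push Not at hc
    have hhT : h ∉ T := by
      intro hhT
      exact hc h hhT (mem_union_left _ (mem_filter.2 ⟨hh, fun _ _ => rfl⟩))
    have hsep : ∀ r ∈ T, (∃ f ∈ mov m k l' l, h.1.1.1 (Sum.inl f) ≠ r.1.1.1 (Sum.inl f)) ∧
        ∃ f ∈ mov m k l' l, h.2.1.1 (Sum.inl f) ≠ r.2.1.1 (Sum.inl f) := by
      intro r hr
      have h1 := hc r hr
      rw [mem_union, not_or] at h1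
      constructor
      · by_contra h2
        push Not at h2
        exact h1.1 (mem_filter.2 ⟨hh, h2⟩)
      · by_contra h2
        push Not at h2
        exact h1.2 (mem_filter.2 ⟨hh, h2⟩)
    have hfree : Free m k l l' (insert h T) := by
      intro q hq r hr hne
      rw [mem_insert] at hq hr
      rcases hq with rfl | hq
      · rcases hr with rfl | hr
        · exact absurd rfl hne
        · exact hsep r hr
      · rcases hr with rfl | hr
        · obtain ⟨⟨f, hf, h1⟩, g, hg, h2⟩ := hsep q hq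
          exact ⟨⟨f, hf, h1.symm⟩, g, hg, h2.symm⟩
        · exact hTF q hq r hr hne
    have h3 := hmax (insert h T) (mem_filter.2 ⟨mem_powerset.2 (insert_subset hh hTH), hfree⟩)
    rw [card_insert_of_notMem hhT] at h3
    omega
  have hTc := hMf T hTH hTF
  calc H.card ≤ (T.biUnion (fun r => A r ∪ B r)).card := card_le_card hcover
    _ ≤ ∑ r ∈ T, (A r ∪ B r).card := card_biUnion_le
    _ ≤ ∑ _r ∈ T, (2 * (Mc * Cp)) := by
        apply sum_le_sum
        intro r _
        refine (card_union_le _ _).trans ?_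
        have h1 := key (A r) (filter_subset _ _) (fun f => r.1.1.1 (Sum.inl f))
          (Or.inl (fun q hq f hf => (mem_filter.1 hq).2 f hf))
        have h2 := key (B r) (filter_subset _ _) (fun f => r.2.1.1 (Sum.inl f))
          (Or.inr (fun q hq f hf => (mem_filter.1 hq).2 f hf))
        omega
    _ = T.card * (2 * (Mc * Cp)) := by rw [sum_const, smul_eq_mul]
    _ ≤ (Mf + 1) * (2 * (Mc * Cp)) := Nat.mul_le_mul_right _ (by omega)
    _ = 2 * Cp * Mc * (Mf + 1) := by ring
    _ ≤ _ := Nat.mul_le_mul_right _ (Nat.mul_le_mul_right _ hCp2)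

end Pool.Agent.Helper29.T5g
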