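import Pool.Agent.Helper29.T5g.Basic
import Pool.Agent.Helper29.T5g.BufInst
import Pool.Agent.Helper99.T5g.OkF
import Pool.Agent.Helper30.T5g.NLb
import Pool.Agent.Helper37.T5g.Prod

/-!
# T5g (MP_12a1af), line 1: the modulus of a state against its main digits

`NL m k (l + 1) ≤ Nj (mL m k l) * exp (14 * Gm)` for late `l`, where `2 ^ 12 * Gm = ZZ`.
-/

set_option autoImplicit false

namespace Pool.Agent.Helper29.T5g

open Finset Pool.Agent.Helper5.ET Pool.Agent.Helper27.T4
open Pool.Agent.Helper37.T5g Pool.Agent.Helper84.T5g Pool.Agent.Helper99.T5g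
open Pool.Agent.Helper27.T5b (l1 ct ct_main ct_mono)
open Pool.Agent.Helper30.T5g (pz QF QT RT PZ ez NL BP RT_succ RT_pos QT_pos)

variable {m : Sq} {k : ℕ}

/-- size of the levels which exist in the era `j` -/
def Gm (m : Sq) (k j : ℕ) : ℕ := if spec m k j then SS m (lv m k j + 1) else SS m (lv m k j)

theorem ZZ_eq (m : Sq) (k j : ℕ) : ZZ m k j = 2 ^ 12 * Gm m k j := by
  unfold ZZ Gm Zt
  split_ifs <;> rfl

theorem Gm_pos (m : Sq) (k j : ℕ) : 0 < Gm m k j := by
  unfold Gm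
  split_ifs <;> exact SS_pos _ _

theorem SS_lv_le_Gm (m : Sq) (k j : ℕ) : SS m (lv m k j) ≤ Gm m k j := by
  unfold Gm
  split_ifs
  · exact SS_mono m (Nat.le_succ _)
  · exact le_rfl

theorem Gm_small (hm : m.Ok) {j : ℕ} (hj : kt m k ≤ j) : 2 ^ 200 * Gm m k j ≤ bb j := by
  have h1 := ZZ_small hm hj
  rw [ZZ_eq] at h1
  have h2 : 2 ^ 200 * Gm m k j ≤ 2 ^ 200 * (2 ^ 12 * Gm m k j) :=
    Nat.mul_le_mul_left _ (Nat.le_mul_of_pos_left _ (by norm_num))
  exact h2.trans h1

/-! ## the modulus -/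

theorem TJ_le (hm : m.Ok) (k t l : ℕ) : Pool.Agent.Helper48.T5g.TJ m k t l ≤ QT m k t := by
  unfold Pool.Agent.Helper48.T5g.TJ QT QF
  apply prod_le_prod'
  intro f _
  exact Nat.pow_le_pow_right (Pool.Agent.Helper30.T5g.pz_pos _ _ _) (ct_some_le_zf hm t f l)

theorem TJ_one (hm : m.Ok) {k t l : ℕ} (h : mL m k l ≤ ut m t) :
    Pool.Agent.Helper48.T5g.TJ m k t l = 1 := by
  unfold Pool.Agent.Helper48.T5g.TJ
  apply prod_eq_one
  intro f _
  have h1 : ct (ins m k) own (ex m k) (Sum.inr (some (t, f))) l = 0 := ct_before hm f h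
  show pz k t f ^ ct (ins m k) own (ex m k) (Sum.inr (some (t, f))) l = 1
  rw [h1, pow_zero]

/-- **garbage of a state** -/
theorem NL_le_garb (hm : m.Ok) {l : ℕ} (hl : bb 0 ≤ mL m k l) :
    NL m k l ≤ Nj (mL m k l) * (1000039 ^ ct (ins m k) own (ex m k) (Sum.inr none) l *
      (10 ^ 6) ^ Gm m k (era (mL m k l))) := by
  set y := mL m k l with hydef
  have h1 := Pool.Agent.Helper27.T5g.Jn_mul_RT (Pool.Agent.Helper27.T5g.cpl_self (k := k) hm hl)
  rw [Pool.Agent.Helper27.T5g.Jn_eq_JJ] at h1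
  unfold Pool.Agent.Helper48.T5g.JJ Pool.Agent.Helper48.T5g.J0 at h1
  have h2 : Nj y = ∏ f : Fin 3, pr f ^ cnt f (Pool.Agent.Helper48.T5g.L1 m k l) :=
    Pool.Agent.Helper30.ET.Nj_eq_prod_fam _
  have key : Pool.Agent.Helper48.T5g.TJ m k (sL m k l + 1) l * RT m k (sL m k l) ≤
      (10 ^ 6) ^ Gm m k (era y) := by
    have hsp := era_spec y hl
    have hlen := bb_add_len (era y)
    by_cases hS : spec m k (era y)
    · have hG : Gm m k (era y) = SS m (lv m k (era y) + 1) := by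
        unfold Gm
        rw [if_pos hS]
      rw [hG]
      by_cases hs : sL m k l = lv m k (era y) + 1
      · rw [hs, TJ_one hm, one_mul]
        · exact Pool.Agent.Helper30.T5g.RT_le hm k _
        · have c1 : kt m (lv m k (era y) + 1) < kt m (lv m k (era y) + 1 + 1) :=
            kt_strictMono hm (Nat.lt_succ_self _)
          have c2 : kt m (lv m k (era y) + 1) = era y := hS
          have c3 := bb_strictMono.monotone (show era y + 1 ≤ kt m (lv m k (era y) + 1 + 1) by omega)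
          have c4 := bb_le_ut m (lv m k (era y) + 1 + 1)
          show y ≤ _
          omega
      · have hs' : sL m k l = lv m k (era y) := by
          have d1 := lv_le_sv m k y
          have d2 := sv_le_lv_succ m k y
          have d3 : sL m k l = sv m k y := rfl
          omega
        rw [hs']
        calc Pool.Agent.Helper48.T5g.TJ m k (lv m k (era y) + 1) l * RT m k (lv m k (era y)) ≤
              QT m k (lv m k (era y) + 1) * RT m k (lv m k (era y)) :=
              Nat.mul_le_mul_right _ (TJ_le hm k _ l)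
          _ = RT m k (lv m k (era y) + 1) := by rw [RT_succ, mul_comm]
          _ ≤ _ := Pool.Agent.Helper30.T5g.RT_le hm k _
    · have hG : Gm m k (era y) = SS m (lv m k (era y)) := by
        unfold Gm
        rw [if_neg hS]
      have hs : sL m k l = lv m k (era y) := by
        show sv m k y = _
        unfold sv
        rw [if_neg (fun h => hS h.1), add_zero]
      rw [hG, hs, TJ_one hm, one_mul]
      · exact Pool.Agent.Helper30.T5g.RT_le hm k _
      · have c1 := le_kt_lv hm k (era y)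
        have c2 : kt m (lv m k (era y) + 1) ≠ era y := hS
        have c3 := bb_strictMono.monotone (show era y + 1 ≤ kt m (lv m k (era y) + 1) by omega)
        have c4 := bb_le_ut m (lv m k (era y) + 1)
        show y ≤ _
        omega
  rw [← h1, ← h2]
  calc Nj y * 1000039 ^ Pool.Agent.Helper48.T5g.cT m k (Sum.inr none) l *
        Pool.Agent.Helper48.T5g.TJ m k (sL m k l + 1) l * RT m k (sL m k l) =
        Nj y * (1000039 ^ Pool.Agent.Helper48.T5g.cT m k (Sum.inr none) l *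
          (Pool.Agent.Helper48.T5g.TJ m k (sL m k l + 1) l * RT m k (sL m k l))) := by ring
    _ ≤ _ := Nat.mul_le_mul_left _ (Nat.mul_le_mul_left _ key)

theorem million_le_exp : ((10 : ℝ) ^ 6) ≤ Real.exp (139 / 10) := by
  have h1 := Real.exp_one_gt_d9
  have h2 : Real.exp (139 / 10) = Real.exp 1 ^ 14 * Real.exp (-(1 / 10)) := by
    rw [← Real.exp_nat_mul, ← Real.exp_add]
    norm_num
  have h3 : (9 / 10 : ℝ) ≤ Real.exp (-(1 / 10)) := by
    have := Real.add_one_le_exp (-(1 / 10) : ℝ)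
    linarith
  have h4 : (2.7182818283 : ℝ) ^ 14 ≤ Real.exp 1 ^ 14 := pow_le_pow_left₀ (by norm_num) h1.le 14
  rw [h2]
  calc (10 : ℝ) ^ 6 ≤ (2.7182818283 : ℝ) ^ 14 * (9 / 10) := by norm_num
    _ ≤ Real.exp 1 ^ 14 * Real.exp (-(1 / 10)) :=
        mul_le_mul h4 h3 (by norm_num) (by positivity)

theorem buf_le_exp : (1000039 : ℝ) ≤ Real.exp 14 := by
  have h1 := Real.exp_one_gt_d9
  have h2 : Real.exp 14 = Real.exp 1 ^ 14 := by
    rw [← Real.exp_nat_mul]
    norm_num
  have h4 : (2.7182818283 : ℝ) ^ 14 ≤ Real.exp 1 ^ 14 := pow_le_pow_left₀ (by norm_num) h1.le 14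
  rw [h2]
  exact le_trans (by norm_num) h4

/-- **the modulus of a late state**: `NL (l + 1) ≤ Nj (main digits) * exp (14 * Gm)` -/
theorem exists_NL_garb (hm : OkF m) (k : ℕ) : ∃ l0, ∀ l ≥ l0,
    (NL m k (l + 1) : ℝ) ≤ Nj (mL m k l) * Real.exp (14 * (Gm m k (era (mL m k l)) : ℝ)) := by
  have hm0 : m.Ok := hm.toOk
  obtain ⟨l0, h0⟩ := Pool.Agent.Helper30.T5g.exists_late (k := k) hm0 0 0
  obtain ⟨l1', h1'⟩ := exists_buf hm0 hm.qc hm.kc k (show 280 ≤ 2 ^ 300 by
    exact le_trans (by norm_num : 280 ≤ 2 ^ 10) (Nat.pow_le_pow_right (by norm_num) (by norm_num)))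
  obtain ⟨t0, ht0⟩ : ∃ t0 : ℕ, ∀ t ≥ t0, 20 * BP k ≤ SS m t :=
    (Pool.Agent.Helper30.T5g.exists_mul_le_SS hm0 (20 * BP k)).imp fun t0 h t ht =>
      (Nat.le_mul_of_pos_right _ (Nat.succ_pos t)).trans (h t ht)
  obtain ⟨l2, h2⟩ := exists_lv hm0 k t0
  refine ⟨max l0 (max l1' l2), fun l hl => ?_⟩
  obtain ⟨_, hy, _, _, _⟩ := h0 l (by omega)
  have a1 := h1' l (by omega)
  have a2 := ht0 _ (h2 l (by omega)).le
  have a3 := NL_le_garb hm0 hy
  have a4 := Pool.Agent.Helper30.T5g.NL_succ_le m k l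
  set G := Gm m k (era (mL m k l)) with hG
  have a5 : SS m (lv m k (era (mL m k l))) ≤ G := SS_lv_le_Gm m k _
  set c := ct (ins m k) own (ex m k) (Sum.inr none) l with hc
  have b1 : (1000039 : ℝ) ^ c ≤ Real.exp (14 * (c : ℝ)) := by
    rw [mul_comm, Real.exp_nat_mul]
    exact pow_le_pow_left₀ (by norm_num) buf_le_exp c
  have b2 : ((10 : ℝ) ^ 6) ^ G ≤ Real.exp (139 / 10 * (G : ℝ)) := by
    rw [mul_comm, Real.exp_nat_mul]
    exact pow_le_pow_left₀ (by norm_num) million_le_exp G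
  have b3 : (BP k : ℝ) ≤ Real.exp (BP k : ℝ) := by
    have := Real.add_one_le_exp (BP k : ℝ)
    linarith
  have b4 : (280 : ℝ) * c ≤ G := by exact_mod_cast a1.trans a5
  have b5 : (20 : ℝ) * BP k ≤ G := by exact_mod_cast a2.trans a5
  have b6 : (NL m k (l + 1) : ℝ) ≤ BP k * (Nj (mL m k l) * (1000039 ^ c * (10 ^ 6) ^ G)) := by
    exact_mod_cast a4.trans (Nat.mul_le_mul_left _ a3)
  have hN : (0 : ℝ) ≤ Nj (mL m k l) := Nat.cast_nonneg _
  calc (NL m k (l + 1) : ℝ) ≤ BP k * (Nj (mL m k l) * (1000039 ^ c * (10 ^ 6) ^ G)) := b6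
    _ = Nj (mL m k l) * (BP k * (1000039 ^ c * (10 ^ 6) ^ G)) := by ring
    _ ≤ Nj (mL m k l) * (Real.exp (BP k : ℝ) * (Real.exp (14 * (c : ℝ)) *
          Real.exp (139 / 10 * (G : ℝ)))) := by
        apply mul_le_mul_of_nonneg_left _ hN
        apply mul_le_mul b3 _ (by positivity) (Real.exp_pos _).le
        exact mul_le_mul b1 b2 (by positivity) (Real.exp_pos _).le
    _ = Nj (mL m k l) * Real.exp ((BP k : ℝ) + (14 * (c : ℝ) + 139 / 10 * (G : ℝ))) := by
        rw [Real.exp_add, Real.exp_add]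
    _ ≤ _ := by
        apply mul_le_mul_of_nonneg_left _ hN
        apply Real.exp_le_exp.2
        linarith

end Pool.Agent.Helper29.T5g
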