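import Pool.Agent.Helper48.T5g.Int

/-!
# T5g (MP_12a1af): the modulus of a state: see `Pool.Agent.Helper48.T5g.Int`
-/
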